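import Mathlib

/-!
# MP_fd33cb_co (Q1): the mode of the domination polynomial need not be next to the average size
-/

open Finset Polynomial

namespace Pool.Agent.Results.MP_fd33cb_co.ModeAwayFromAverage

/-- `S` is a dominating set of `G`. -/
def IsDominating {V : Type} (G : SimpleGraph V) (S : Finset V) : Prop :=
  ∀ v, v ∈ S ∨ ∃ u ∈ S, G.Adj u v

/-- `d_i(G)`: the number of dominating sets of size `i`. -/
noncomputable def domCount {V : Type} (G : SimpleGraph V) (i : ℕ) : ℕ :=
  Nat.card {S : Finset V // IsDominating G S ∧ S.card = i}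

/-- The average size of a dominating set, `D'(G,1) / D(G,1)`. -/
noncomputable def avd {V : Type} [Fintype V] (G : SimpleGraph V) : ℚ :=
  (∑ i ∈ range (Fintype.card V + 1), (i : ℚ) * domCount G i) /
    (∑ i ∈ range (Fintype.card V + 1), (domCount G i : ℚ))

/-- `m` is a mode: `d_m(G)` is the maximum of the `d_i(G)`. -/
def IsMode {V : Type} (G : SimpleGraph V) (m : ℕ) : Prop :=
  ∀ i, domCount G i ≤ domCount G m

/-! ### The domination polynomial as a sum over 0-1 functions -/

section gen

variable {V : Type} [Fintype V] [DecidableEq V]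

/-- Domination in terms of indicator functions. -/
def DomF (G : SimpleGraph V) (f : V → Bool) : Prop := ∀ v, f v = true ∨ ∃ u, f u = true ∧ G.Adj u v

/-- The weight of a vertex. -/
noncomputable def wt (b : Bool) : ℕ[X] := if b then X else 1

open Classical in
/-- The domination polynomial. -/
noncomputable def gen (G : SimpleGraph V) : ℕ[X] :=
  ∑ f : V → Bool, if DomF G f then ∏ v, wt (f v) else 0

omit [DecidableEq V] in
open Classical in
lemma prod_wt (f : V → Bool) : ∏ v, wt (f v) = X ^ (univ.filter fun v => f v = true).card := by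
  unfold wt
  rw [Finset.prod_ite]
  simp

open Classical in
lemma coeff_gen (G : SimpleGraph V) (i : ℕ) : (gen G).coeff i = domCount G i := by
  unfold gen
  rw [finsetSum_coeff]
  have h1 : ∀ f : V → Bool, (if DomF G f then ∏ v, wt (f v) else 0).coeff i =
      if DomF G f ∧ (univ.filter fun v => f v = true).card = i then 1 else 0 := by
    intro f
    by_cases h : DomF G f
    · rw [if_pos h, prod_wt, coeff_X_pow]
      simp only [h, true_and, eq_comm]
    · simp [h]
  simp only [h1]
  rw [Finset.sum_boole, Nat.cast_id]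
  unfold domCount
  rw [← Fintype.card_subtype, ← Nat.card_eq_fintype_card]
  refine Nat.card_congr ⟨fun f => ⟨univ.filter fun v => f.1 v = true, ?_, f.2.2⟩,
    fun S => ⟨fun v => decide (v ∈ S.1), ?_, ?_⟩, ?_, ?_⟩
  · intro v
    rcases f.2.1 v with h | ⟨u, hu, h⟩
    · left; simpa using h
    · right; exact ⟨u, by simpa using hu, h⟩
  · intro v
    rcases S.2.1 v with h | ⟨u, hu, h⟩
    · left; simpa using h
    · right; exact ⟨u, by simpa using hu, h⟩
  · have : (univ.filter fun v => decide (v ∈ S.1) = true) = S.1 := by ext v; simp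
    rw [this]; exact S.2.2
  · intro f
    apply Subtype.ext
    funext v
    simp
  · intro S
    apply Subtype.ext
    ext v
    simp

end gen

/-! ### The graph

`L` has `a` hubs; there are `b` columns, each consisting of a hub `r`, of `t` disjoint 4-cycles
joined completely to `r`, and of one clause vertex `u i` for every `i` in `L`, adjacent to `i` and
to `r`. All hubs `r` are adjacent to all of `L`. -/

section graph

variable {a b t : ℕ}

/-- A column. -/
abbrev Col (a t : ℕ) : Type := Unit ⊕ ((Fin t × Fin 4) ⊕ Fin a)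

/-- The vertex set. -/
abbrev Vx (a b t : ℕ) : Type := Fin a ⊕ (Fin b × Col a t)

instance : DecidableEq (Col a t) := inferInstance

instance : DecidableEq (Vx a b t) := inferInstance

/-- The adjacency relation. -/
def adj : Vx a b t → Vx a b t → Prop
  | .inl _, .inr (_, .inl _) => True
  | .inr (_, .inl _), .inl _ => True
  | .inl i, .inr (_, .inr (.inr i')) => i = i'
  | .inr (_, .inr (.inr i')), .inl i => i = i'
  | .inr (j, .inl _), .inr (j', .inr _) => j = j'
  | .inr (j, .inr _), .inr (j', .inl _) => j = j'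
  | .inr (j, .inr (.inl (c, y))), .inr (j', .inr (.inl (c', y'))) =>
      j = j' ∧ c = c' ∧ (y' = y + 1 ∨ y = y' + 1)
  | _, _ => False

/-- The graph. -/
def Gr (a b t : ℕ) : SimpleGraph (Vx a b t) where
  Adj := adj
  symm := ⟨by
    rintro (i | ⟨j, (_ | (⟨c, y⟩ | u))⟩) (i' | ⟨j', (_ | (⟨c', y'⟩ | u'))⟩) h <;>
      simp only [adj] at h ⊢ <;> first | trivial | (exact h.symm) | exact h | skip
    exact ⟨h.1.symm, h.2.1.symm, h.2.2.symm⟩⟩
  loopless := ⟨by
    rintro (i | ⟨j, (_ | (⟨c, y⟩ | u))⟩) h <;> simp only [adj] at h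
    rcases h.2.2 with h | h <;> revert h <;> fin_cases y <;> decide⟩

/-- Domination in a 4-cycle. -/
def C4ok (k : Fin 4 → Bool) : Prop := ∀ y, k y = true ∨ ∃ z, k z = true ∧ (y = z + 1 ∨ z = y + 1)

instance (k : Fin 4 → Bool) : Decidable (C4ok k) := by unfold C4ok; infer_instance

/-- The condition on a column. -/
def colOK (A : Fin a → Bool) (h : Col a t → Bool) : Prop :=
  h (.inl ()) = true ∨ ((∀ c, C4ok fun y => h (.inr (.inl (c, y)))) ∧
    ∀ i, A i = true ∨ h (.inr (.inr i)) = true)

lemma dom_iff (hb : 0 < b) (ht : 0 < t) (f : Vx a b t → Bool) :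
    DomF (Gr a b t) f ↔ ∀ j, colOK (fun i => f (.inl i)) (fun w => f (.inr (j, w))) := by
  constructor
  · intro h j
    unfold colOK
    by_cases hr : f (.inr (j, .inl ())) = true
    · exact Or.inl hr
    · refine Or.inr ⟨fun c y => ?_, fun i => ?_⟩
      · rcases h (.inr (j, .inr (.inl (c, y)))) with h1 | ⟨u, hu, h1⟩
        · exact Or.inl h1
        · right
          match u, hu, h1 with
          | .inl i, _, h1 => exact absurd h1 (by simp [Gr, adj])
          | .inr (j', .inl ()), hu, h1 =>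
            have : j' = j := h1
            subst this
            exact absurd hu hr
          | .inr (j', .inr (.inl (c', y'))), hu, h1 =>
            obtain ⟨h2, h3, h4⟩ : j' = j ∧ c' = c ∧ (y = y' + 1 ∨ y' = y + 1) := h1
            subst h2 h3
            exact ⟨y', hu, h4⟩
          | .inr (j', .inr (.inr i)), _, h1 => exact absurd h1 (by simp [Gr, adj])
      · rcases h (.inr (j, .inr (.inr i))) with h1 | ⟨u, hu, h1⟩
        · exact Or.inr h1
        · left
          match u, hu, h1 with
          | .inl i', hu, h1 =>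
            have : i' = i := h1
            subst this
            exact hu
          | .inr (j', .inl ()), hu, h1 =>
            have : j' = j := h1
            subst this
            exact absurd hu hr
          | .inr (j', .inr (.inl (c', y'))), _, h1 => exact absurd h1 (by simp [Gr, adj])
          | .inr (j', .inr (.inr i)), _, h1 => exact absurd h1 (by simp [Gr, adj])
  · intro h v
    match v with
    | .inl i =>
      rcases h ⟨0, hb⟩ with h1 | ⟨_, h2⟩
      · exact Or.inr ⟨_, h1, trivial⟩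
      · rcases h2 i with h3 | h3
        · exact Or.inl h3
        · exact Or.inr ⟨_, h3, rfl⟩
    | .inr (j, .inl ()) =>
      rcases h j with h1 | ⟨h2, _⟩
      · exact Or.inl h1
      · rcases h2 ⟨0, ht⟩ 0 with h3 | ⟨z, h3, _⟩
        · exact Or.inr ⟨_, h3, rfl⟩
        · exact Or.inr ⟨_, h3, rfl⟩
    | .inr (j, .inr (.inl (c, y))) =>
      rcases h j with h1 | ⟨h2, _⟩
      · exact Or.inr ⟨_, h1, rfl⟩
      · rcases h2 c y with h3 | ⟨z, h3, h4⟩
        · exact Or.inl h3
        · exact Or.inr ⟨.inr (j, .inr (.inl (c, z))), h3, rfl, rfl, h4⟩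
    | .inr (j, .inr (.inr i)) =>
      rcases h j with h1 | ⟨_, h2⟩
      · exact Or.inr ⟨_, h1, rfl⟩
      · rcases h2 i with h3 | h3
        · exact Or.inr ⟨.inl i, h3, rfl⟩
        · exact Or.inl h3

/-! ### The domination polynomial of the graph -/

lemma sum_prod_pi {ι κ : Type} [Fintype ι] [DecidableEq ι] [Fintype κ] (F : ι → κ → ℕ[X]) :
    ∑ f : ι → κ, ∏ i, F i (f i) = ∏ i, ∑ k, F i k := by
  have h1 := Finset.prod_univ_sum (fun _ : ι => (univ : Finset κ)) F
  rw [Fintype.piFinset_univ] at h1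
  exact h1.symm

lemma sum_wt : ∑ k : Bool, wt k = 1 + X := by
  simp [wt, add_comm]

open Classical in
/-- The polynomial of a column. -/
noncomputable def colPoly (A : Fin a → Bool) (t : ℕ) : ℕ[X] :=
  ∑ h : Col a t → Bool, if colOK A h then ∏ w, wt (h w) else 0

open Classical in
lemma gen_eq (hb : 0 < b) (ht : 0 < t) : gen (Gr a b t) =
    ∑ A : Fin a → Bool, (∏ i, wt (A i)) * (colPoly A t) ^ b := by
  unfold gen
  simp only [dom_iff hb ht]
  let e : ((Fin a → Bool) × (Fin b → Col a t → Bool)) ≃ (Vx a b t → Bool) :=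
    ((Equiv.refl _).prodCongr (Equiv.curry _ _ _).symm).trans (Equiv.sumArrowEquivProdArrow _ _ _).symm
  rw [← Equiv.sum_comp e, Fintype.sum_prod_type]
  refine Finset.sum_congr rfl fun A _ => ?_
  have h1 : ∀ g : Fin b → Col a t → Bool,
      (if ∀ j, colOK (fun i => e (A, g) (.inl i)) (fun w => e (A, g) (.inr (j, w)))
        then ∏ v, wt (e (A, g) v) else 0) =
      (∏ i, wt (A i)) * ∏ j, (if colOK A (g j) then ∏ w, wt (g j w) else 0) := by
    intro g
    have h2 : ∀ i, e (A, g) (.inl i) = A i := fun i => rfl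
    have h3 : ∀ j w, e (A, g) (.inr (j, w)) = g j w := fun j w => rfl
    simp only [h2, h3]
    rw [Finset.prod_ite_zero, Fintype.prod_sum_type, Fintype.prod_prod_type]
    simp only [h2, h3, Finset.mem_univ, forall_true_left]
    split_ifs <;> simp
  simp only [h1]
  rw [← Finset.mul_sum, sum_prod_pi (fun (_ : Fin b) (h : Col a t → Bool) =>
    if colOK A h then ∏ w, wt (h w) else 0)]
  simp [colPoly]

lemma c4_sum : (∑ k : Fin 4 → Bool, if C4ok k then ∏ y, wt (k y) else 0) =
    6 * X ^ 2 + 4 * X ^ 3 + X ^ 4 := by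
  let e : (Bool × Bool × Bool × Bool) ≃ (Fin 4 → Bool) :=
    { toFun := fun p => ![p.1, p.2.1, p.2.2.1, p.2.2.2]
      invFun := fun k => (k 0, k 1, k 2, k 3)
      left_inv := fun p => by simp
      right_inv := fun k => by funext i; fin_cases i <;> rfl }
  rw [← Equiv.sum_comp e]
  simp only [Fintype.sum_prod_type, Fintype.sum_bool, e, Equiv.coe_fn_mk, Fin.prod_univ_four]
  have h : ∀ p q r s : Bool, C4ok ![p, q, r, s] ↔
      (p && q || p && r || p && s || q && r || q && s || r && s) = true := by decide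
  simp only [h]
  simp [wt]
  ring

open Classical in
lemma colPoly_eq (A : Fin a → Bool) (t : ℕ) : colPoly A t = X * (1 + X) ^ (4 * t + a) +
    (6 * X ^ 2 + 4 * X ^ 3 + X ^ 4) ^ t * ∏ i, (if A i = true then 1 + X else X) := by
  let e : (Bool × (Fin t → Fin 4 → Bool) × (Fin a → Bool)) ≃ (Col a t → Bool) :=
    { toFun := fun p => Sum.elim (fun _ => p.1) (Sum.elim (fun cy => p.2.1 cy.1 cy.2) p.2.2)
      invFun := fun h => (h (.inl ()), fun c y => h (.inr (.inl (c, y))), fun i => h (.inr (.inr i)))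
      left_inv := fun p => rfl
      right_inv := fun h => by
        funext w
        rcases w with _ | (⟨c, y⟩ | i) <;> rfl }
  have e1 : ∀ b hY hU, e (b, hY, hU) (.inl ()) = b := fun _ _ _ => rfl
  have e2 : ∀ b hY hU c y, e (b, hY, hU) (.inr (.inl (c, y))) = hY c y := fun _ _ _ _ _ => rfl
  have e3 : ∀ b hY hU i, e (b, hY, hU) (.inr (.inr i)) = hU i := fun _ _ _ _ => rfl
  unfold colPoly
  rw [← Equiv.sum_comp e, Fintype.sum_prod_type, Fintype.sum_bool]
  simp only [Fintype.sum_prod_type]
  have h1 : ∀ (b : Bool) (hY : Fin t → Fin 4 → Bool) (hU : Fin a → Bool),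
      ∏ w, wt (e (b, hY, hU) w) = wt b * ((∏ c, ∏ y, wt (hY c y)) * ∏ i, wt (hU i)) := by
    intro b hY hU
    rw [Fintype.prod_sum_type, Fintype.prod_sum_type, Fintype.prod_prod_type]
    simp only [e2, e3, Finset.univ_unique, Finset.prod_singleton]
    congr 1
  have h2 : ∀ (hY : Fin t → Fin 4 → Bool) (hU : Fin a → Bool), colOK A (e (true, hY, hU)) := by
    intro hY hU
    exact Or.inl rfl
  have h3 : ∀ (hY : Fin t → Fin 4 → Bool) (hU : Fin a → Bool), colOK A (e (false, hY, hU)) ↔
      ((∀ c, C4ok (hY c)) ∧ ∀ i, A i = true ∨ hU i = true) := by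
    intro hY hU
    unfold colOK
    simp only [e1, e2, e3, Bool.false_eq_true, false_or]
  simp only [h1, h2, h3, if_true]
  congr 1
  · simp only [← Finset.mul_sum, ← Finset.sum_mul]
    have h4 := sum_prod_pi (fun (_ : Fin t) (k : Fin 4 → Bool) => ∏ y, wt (k y))
    have h5 := sum_prod_pi (fun (_ : Fin a) (k : Bool) => wt k)
    have h6 := sum_prod_pi (fun (_ : Fin 4) (k : Bool) => wt k)
    rw [h4, h5]
    simp only [h6, sum_wt, Finset.prod_const, Finset.card_univ, Fintype.card_fin]
    rw [pow_add, pow_mul]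
    simp [wt]
  · have h4 : ∀ (hY : Fin t → Fin 4 → Bool) (hU : Fin a → Bool),
        (if (∀ c, C4ok (hY c)) ∧ ∀ i, A i = true ∨ hU i = true then
          wt false * ((∏ c, ∏ y, wt (hY c y)) * ∏ i, wt (hU i)) else 0) =
        (∏ c, if C4ok (hY c) then ∏ y, wt (hY c y) else 0) *
          ∏ i, (if A i = true ∨ hU i = true then wt (hU i) else 0) := by
      intro hY hU
      rw [Finset.prod_ite_zero, Finset.prod_ite_zero]
      simp only [Finset.mem_univ, forall_true_left]
      by_cases c1 : ∀ c, C4ok (hY c) <;> by_cases c2 : ∀ i, A i = true ∨ hU i = true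
      · rw [if_pos ⟨c1, c2⟩, if_pos c1, if_pos c2]; simp [wt]
      · rw [if_neg (fun h => c2 h.2), if_neg c2, mul_zero]
      · rw [if_neg (fun h => c1 h.1), if_neg c1, zero_mul]
      · rw [if_neg (fun h => c1 h.1), if_neg c1, zero_mul]
    simp only [h4]
    simp only [← Finset.mul_sum, ← Finset.sum_mul]
    rw [sum_prod_pi (fun (_ : Fin t) (k : Fin 4 → Bool) => if C4ok k then ∏ y, wt (k y) else 0),
      sum_prod_pi (fun (i : Fin a) (k : Bool) => if A i = true ∨ k = true then wt k else 0)]
    have h5 : (∑ k : Fin 4 → Bool, if C4ok k then ∏ y, wt (k y) else 0) =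
      6 * X ^ 2 + 4 * X ^ 3 + X ^ 4 := by
      rw [← c4_sum]
    simp only [h5, Finset.prod_const, Finset.card_univ, Fintype.card_fin]
    congr 1
    refine Finset.prod_congr rfl fun i _ => ?_
    cases hA : A i <;> simp [wt, add_comm]

/-- The closed form, as a polynomial. -/
noncomputable def closed (a b t : ℕ) : ℕ[X] :=
  ∑ s ∈ range (a + 1), a.choose s • (X ^ s *
    (X * (1 + X) ^ (4 * t + a) +
      (6 * X ^ 2 + 4 * X ^ 3 + X ^ 4) ^ t * ((1 + X) ^ s * X ^ (a - s))) ^ b)

lemma gen_closed (hb : 0 < b) (ht : 0 < t) : gen (Gr a b t) = closed a b t := by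
  classical
  rw [gen_eq hb ht]
  let F : ℕ → ℕ[X] := fun s => X ^ s * (X * (1 + X) ^ (4 * t + a) +
      (6 * X ^ 2 + 4 * X ^ 3 + X ^ 4) ^ t * ((1 + X) ^ s * X ^ (a - s))) ^ b
  have h1 : ∀ A : Fin a → Bool, (∏ i, wt (A i)) * (colPoly A t) ^ b =
      F (univ.filter fun i => A i = true).card := by
    intro A
    rw [colPoly_eq, prod_wt]
    have h2 : ∏ i, (if A i = true then (1 + X : ℕ[X]) else X) =
        (1 + X) ^ (univ.filter fun i => A i = true).card *
          X ^ (a - (univ.filter fun i => A i = true).card) := by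
      rw [Finset.prod_ite, Finset.prod_const, Finset.prod_const]
      congr 2
      have := Finset.card_filter_add_card_filter_not (s := (univ : Finset (Fin a))) (fun i => A i = true)
      simp only [Finset.card_univ, Fintype.card_fin] at this
      omega
    rw [h2]
  simp only [h1]
  have h3 := Finset.sum_powerset_apply_card (x := (univ : Finset (Fin a))) F
  rw [Finset.card_univ, Fintype.card_fin] at h3
  unfold closed
  rw [← h3, Finset.powerset_univ]
  let e : (Fin a → Bool) ≃ Finset (Fin a) :=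
    { toFun := fun A => univ.filter fun i => A i = true
      invFun := fun S => fun i => decide (i ∈ S)
      left_inv := fun A => by funext i; simp
      right_inv := fun S => by ext i; simp }
  exact Equiv.sum_comp e (fun S => F S.card)

end graph

/-! ### Numerical values for `a = 16`, `b = 41`, `t = 3` -/

/-- Value of a column at `1`. -/
def cc (s : ℕ) : ℕ := 2 ^ 28 + 11 ^ 3 * 2 ^ s

/-- Derivative of a column at `1`. -/
def cd (s : ℕ) : ℕ :=
  2 ^ 28 + 28 * 2 ^ 27 + (3 * 11 ^ 2 * 28 * 2 ^ s + 11 ^ 3 * (s * 2 ^ (s - 1) + 2 ^ s * (16 - s)))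

/-- Number of dominating sets. -/
def TT : ℕ := ∑ s ∈ range 17, Nat.choose 16 s * cc s ^ 41

/-- Sum of the sizes of the dominating sets. -/
def TD : ℕ := ∑ s ∈ range 17, Nat.choose 16 s * (s * cc s ^ 41 + 41 * cc s ^ 40 * cd s)

/-- Value of the domination polynomial. -/
def PN (x : ℕ) : ℕ := ∑ s ∈ range 17, Nat.choose 16 s * (x ^ s * (x * (1 + x) ^ 28 +
  (6 * x ^ 2 + 4 * x ^ 3 + x ^ 4) ^ 3 * ((1 + x) ^ s * x ^ (16 - s))) ^ 41)

lemma n1 : 631 * TT < TD := by decide +kernel

lemma n2 : TD < 632 * TT := by decide +kernel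

lemma n3 : TT < 2 ^ 1206 := by decide +kernel

lemma n4 : PN (2 ^ 1206) / (2 ^ 1206) ^ 631 % 2 ^ 1206 <
    PN (2 ^ 1206) / (2 ^ 1206) ^ 633 % 2 ^ 1206 := by decide +kernel

lemma n5 : PN (2 ^ 1206) / (2 ^ 1206) ^ 632 % 2 ^ 1206 <
    PN (2 ^ 1206) / (2 ^ 1206) ^ 633 % 2 ^ 1206 := by decide +kernel

/-- Reading off a coefficient from the value at a large number. -/
lemma coeff_of_eval (B : ℕ) (hB : 0 < B) : ∀ (i : ℕ) (p : ℕ[X]), (∀ j, p.coeff j < B) →
    p.eval B / B ^ i % B = p.coeff i := by
  intro i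
  induction i with
  | zero =>
    intro p hp
    rw [pow_zero, Nat.div_one]
    conv_lhs => rw [← Polynomial.divX_mul_X_add p]
    simp only [eval_add, eval_mul, eval_X, eval_C]
    rw [Nat.mul_add_mod_self_right]
    exact Nat.mod_eq_of_lt (hp 0)
  | succ i ih =>
    intro p hp
    have h1 : p.eval B / B = (divX p).eval B := by
      conv_lhs => rw [← Polynomial.divX_mul_X_add p]
      simp only [eval_add, eval_mul, eval_X, eval_C]
      rw [add_comm, Nat.add_mul_div_right _ _ hB, Nat.div_eq_of_lt (hp 0), zero_add]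
    rw [pow_succ', ← Nat.div_div_eq_div_mul, h1, ih (divX p) (fun j => by
      rw [coeff_divX]; exact hp _), coeff_divX]

lemma coeff_le_eval_one (p : ℕ[X]) (i : ℕ) : p.coeff i ≤ p.eval 1 := by
  rw [eval_eq_sum_range' (n := max (p.natDegree + 1) (i + 1)) (by omega)]
  simp only [one_pow, mul_one]
  exact Finset.single_le_sum (f := fun i => p.coeff i) (fun _ _ => Nat.zero_le _)
    (Finset.mem_range.2 (by omega))

/-- The domination polynomial of the graph. -/
noncomputable abbrev DP : ℕ[X] := gen (Gr 16 41 3)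

lemma DP_eval (x : ℕ) : DP.eval x = PN x := by
  rw [DP, gen_closed (by norm_num) (by norm_num), closed, eval_finsetSum, PN]
  refine Finset.sum_congr rfl fun s _ => ?_
  simp only [nsmul_eq_mul, eval_mul, eval_add, eval_pow, eval_X, eval_one, eval_ofNat,
    eval_natCast, Nat.cast_id]

lemma dpow (p : ℕ[X]) (k : ℕ) : (derivative (p ^ k)).eval 1 = k * (p.eval 1) ^ (k - 1) * (derivative p).eval 1 := by
  rw [derivative_pow, eval_mul, eval_mul, eval_pow, eval_C]
  rfl

lemma dmul (p q : ℕ[X]) : (derivative (p * q)).eval 1 = (derivative p).eval 1 * q.eval 1 + p.eval 1 * (derivative q).eval 1 := by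
  rw [derivative_mul, eval_add, eval_mul, eval_mul]

lemma dadd (p q : ℕ[X]) : (derivative (p + q)).eval 1 = (derivative p).eval 1 + (derivative q).eval 1 := by
  rw [derivative_add, eval_add]

lemma dX : (derivative (X : ℕ[X])).eval 1 = 1 := by rw [derivative_X, eval_one]

lemma d1X : (derivative (1 + X : ℕ[X])).eval 1 = 1 := by
  rw [dadd, dX, derivative_one, eval_zero]

lemma e1X : (1 + X : ℕ[X]).eval 1 = 2 := by
  rw [eval_add, eval_one, eval_X]

lemma col_one (Q : ℕ[X]) (k t s r : ℕ) :
    (X * (1 + X) ^ k + Q ^ t * ((1 + X) ^ s * X ^ r) : ℕ[X]).eval 1 = 2 ^ k + (Q.eval 1) ^ t * 2 ^ s := by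
  rw [eval_add, eval_mul, eval_mul, eval_mul, eval_pow, eval_pow, eval_pow, eval_pow, e1X, eval_X, one_pow, one_mul, mul_one]

lemma col_deriv (Q : ℕ[X]) (k t s r : ℕ) :
    (derivative (X * (1 + X) ^ k + Q ^ t * ((1 + X) ^ s * X ^ r) : ℕ[X])).eval 1 =
      2 ^ k + k * 2 ^ (k - 1) + (t * (Q.eval 1) ^ (t - 1) * (derivative Q).eval 1 * 2 ^ s +
        (Q.eval 1) ^ t * (s * 2 ^ (s - 1) + 2 ^ s * r)) := by
  rw [dadd, dmul, dmul, dmul, dpow, dpow, dpow, dpow, dX, d1X, eval_mul, eval_pow, eval_pow, eval_pow, eval_pow, e1X, eval_X,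
    one_pow, one_pow]
  ring

lemma Q_one : (6 * X ^ 2 + 4 * X ^ 3 + X ^ 4 : ℕ[X]).eval 1 = 11 := by
  simp

lemma Q_deriv : (derivative (6 * X ^ 2 + 4 * X ^ 3 + X ^ 4 : ℕ[X])).eval 1 = 28 := by
  have h6 : (derivative (6 : ℕ[X])).eval 1 = 0 := by rw [derivative_ofNat]; simp
  have h4 : (derivative (4 : ℕ[X])).eval 1 = 0 := by rw [derivative_ofNat]; simp
  rw [dadd, dadd, dmul, dmul, dpow, dpow, dpow, h6, h4, dX]
  simp


lemma DP_one : DP.eval 1 = TT := by
  rw [DP, gen_closed (by norm_num) (by norm_num), closed, eval_finsetSum, TT]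
  refine Finset.sum_congr rfl fun s _ => ?_
  rw [nsmul_eq_mul, eval_mul, eval_mul, eval_natCast, eval_pow, eval_X, one_pow, one_mul, eval_pow,
    col_one, Q_one]
  rfl

lemma DP_deriv : (derivative DP).eval 1 = TD := by
  rw [DP, gen_closed (by norm_num) (by norm_num), closed, derivative_sum, eval_finsetSum, TD]
  refine Finset.sum_congr rfl fun s _ => ?_
  rw [nsmul_eq_mul, dmul, dmul, dpow, dpow, eval_natCast, derivative_natCast, eval_zero, zero_mul,
    zero_add, eval_pow, eval_X, one_pow, eval_pow, eval_X, one_pow, col_one, col_deriv, Q_one,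
    Q_deriv, dX, mul_one, mul_one, one_mul]
  rfl

/-! ### Conclusion -/

lemma domCount_zero {V : Type} [Fintype V] (G : SimpleGraph V) (i : ℕ) (hi : Fintype.card V < i) :
    domCount G i = 0 := by
  unfold domCount
  rw [Nat.card_eq_zero]
  left
  refine ⟨fun S => ?_⟩
  have h1 := Finset.card_le_univ S.1
  have h2 := S.2.2
  omega

lemma natDegree_gen {V : Type} [Fintype V] [DecidableEq V] (G : SimpleGraph V) :
    (gen G).natDegree < Fintype.card V + 1 := by
  rw [Nat.lt_succ_iff, natDegree_le_iff_coeff_eq_zero]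
  intro i hi
  rw [coeff_gen, domCount_zero G i hi]

lemma avd_eq : avd (Gr 16 41 3) = (TD : ℚ) / TT := by
  unfold avd
  have h1 : (∑ i ∈ range (Fintype.card (Vx 16 41 3) + 1), (domCount (Gr 16 41 3) i : ℚ)) = TT := by
    rw [← DP_one, eval_eq_sum_range' (natDegree_gen _)]
    push_cast
    simp only [one_pow, mul_one, coeff_gen]
  have h2 : (∑ i ∈ range (Fintype.card (Vx 16 41 3) + 1), (i : ℚ) * domCount (Gr 16 41 3) i)
      = TD := by
    rw [← DP_deriv, derivative_eval, sum_over_range' _ _ _ (natDegree_gen _)]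
    · push_cast
      simp only [one_pow, mul_one, coeff_gen]
      refine Finset.sum_congr rfl fun i _ => ?_
      ring
    · intro n; simp
  rw [h1, h2]

lemma TT_pos : 0 < TT := by decide +kernel

lemma coeff_DP (i : ℕ) : domCount (Gr 16 41 3) i = PN (2 ^ 1206) / (2 ^ 1206) ^ i % 2 ^ 1206 := by
  rw [← DP_eval, coeff_of_eval _ (by positivity) i DP, coeff_gen]
  intro j
  have h1 := coeff_le_eval_one DP j
  rw [DP_one] at h1
  exact lt_of_le_of_lt h1 n3

/-- **Theorem.** There are a finite simple graph `G` and a mode `m` of its domination polynomial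
with `m ∉ {⌊avd(G)⌋, ⌈avd(G)⌉}`. -/
theorem result : ∃ (V : Type) (_ : Fintype V) (G : SimpleGraph V) (m : ℕ),
    IsMode G m ∧ (m : ℤ) ≠ ⌊avd G⌋ ∧ (m : ℤ) ≠ ⌈avd G⌉ := by
  refine ⟨Vx 16 41 3, inferInstance, Gr 16 41 3, ?_⟩
  obtain ⟨m, hm, hmax⟩ := Finset.exists_max_image (range (Fintype.card (Vx 16 41 3) + 1))
    (domCount (Gr 16 41 3)) ⟨0, by simp⟩
  have hmode : IsMode (Gr 16 41 3) m := by
    intro i
    by_cases hi : i < Fintype.card (Vx 16 41 3) + 1
    · exact hmax i (Finset.mem_range.2 hi)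
    · rw [domCount_zero _ i (by omega)]
      exact Nat.zero_le _
  have hT : (0 : ℚ) < TT := by exact_mod_cast TT_pos
  have hfl : ⌊avd (Gr 16 41 3)⌋ = 631 := by
    rw [Int.floor_eq_iff, avd_eq, le_div_iff₀ hT, div_lt_iff₀ hT]
    have h1 := n1
    have h2 := n2
    constructor
    · exact_mod_cast h1.le
    · have : (TD : ℚ) < 632 * TT := by exact_mod_cast h2
      refine lt_of_lt_of_eq this ?_
      norm_num
  have hce : ⌈avd (Gr 16 41 3)⌉ = 632 := by
    rw [Int.ceil_eq_iff, avd_eq, lt_div_iff₀ hT, div_le_iff₀ hT]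
    have h1 := n1
    have h2 := n2
    constructor
    · have : 631 * (TT : ℚ) < TD := by exact_mod_cast h1
      refine lt_of_eq_of_lt ?_ this
      norm_num
    · exact_mod_cast h2.le
  refine ⟨m, hmode, ?_, ?_⟩
  · rw [hfl]
    intro h
    have hm1 : m = 631 := by exact_mod_cast h
    have h1 := hmode 633
    rw [hm1, coeff_DP, coeff_DP] at h1
    exact absurd n4 (not_lt.2 h1)
  · rw [hce]
    intro h
    have hm1 : m = 632 := by exact_mod_cast h
    have h1 := hmode 633
    rw [hm1, coeff_DP, coeff_DP] at h1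
    exact absurd n5 (not_lt.2 h1)

end Pool.Agent.Results.MP_fd33cb_co.ModeAwayFromAverage
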